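import Pool.Agent.V1188.SD5

open Filter Topology

namespace Pool.Agent.Results.MP_035d7c_an.PowerSigns

/- `ℕ → Bool` carries the metric `dist ε δ = (1/2) ^ (first index where they differ)`. -/
attribute [local instance] PiNat.metricSpace

/-- the sign attached to a Boolean: `true` is `1` and `false` is `-1` -/
def sgn (b : Bool) : ℝ := if b then 1 else -1

/-- the vectors `a_(n+1) = ((n+1)^(-α₁), (n+1)^(-α₂))`, indexed by `n = 0, 1, 2, ...` -/
noncomputable def vec (α₁ α₂ : ℝ) (n : ℕ) : Fin 2 → ℝ :=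
  ![((n : ℝ) + 1) ^ (-α₁), ((n : ℝ) + 1) ^ (-α₂)]

/-- the set `E(L)` of sign choices whose signed series converges to `L` -/
def signSet (a : ℕ → (Fin 2 → ℝ)) (L : Fin 2 → ℝ) : Set (ℕ → Bool) :=
  {ε | Tendsto (fun N => ∑ n ∈ Finset.range N, sgn (ε n) • a n) atTop (𝓝 L)}

open Pool.Agent.V1188.SD

lemma signSet_eq (α₁ α₂ : ℝ) (L : Fin 2 → ℝ) :
    signSet (vec α₁ α₂) L = SS α₁ α₂ (L 0) (L 1) := by
  ext ε
  unfold signSet SS
  rw [Set.mem_ofPred_eq, Set.mem_ofPred_eq, tendsto_pi_nhds, Fin.forall_fin_two]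
  simp only [Finset.sum_apply, Pi.smul_apply, smul_eq_mul]
  rfl

lemma SS_swap (a b X Y : ℝ) : SS a b X Y = SS b a Y X := by
  ext ε
  unfold SS
  rw [Set.mem_ofPred_eq, Set.mem_ofPred_eq, and_comm]

/-- For all distinct exponents in `(0,1]`: every point of the plane is attained by some choice of
signs, and for every point the set of sign choices attaining it has Hausdorff dimension one. -/
theorem result (α₁ α₂ : ℝ) (h₁ : α₁ ∈ Set.Ioc (0 : ℝ) 1) (h₂ : α₂ ∈ Set.Ioc (0 : ℝ) 1)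
    (hne : α₁ ≠ α₂) :
    (∀ L, (signSet (vec α₁ α₂) L).Nonempty) ∧ ∀ L, dimH (signSet (vec α₁ α₂) L) = 1 := by
  have key : ∀ X Y, (SS α₁ α₂ X Y).Nonempty := by
    intro X Y
    rcases lt_or_gt_of_ne hne with h | h
    · rw [SS_swap]
      exact SS_nonempty h₁.1 h h₂.2 Y X
    · exact SS_nonempty h₂.1 h h₁.2 X Y
  refine ⟨fun L => ?_, fun L => ?_⟩
  · rw [signSet_eq]
    exact key _ _
  · rw [signSet_eq]
    exact SS_dim h₁.1 h₂.1 key _ _

end Pool.Agent.Results.MP_035d7c_an.PowerSigns
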